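import Pool.Agent.H49.LAN.Stmts

/-!
# LAN, module CHR: characters of a finite commutative group
-/

set_option autoImplicit false

open scoped BigOperators
open Finset

namespace LAN

theorem chr : CHRStmt := by
  intro W _ _ _ L _ _ ζ hζ
  classical
  have hne : NeZero (Fintype.card W) := ⟨Fintype.card_ne_zero⟩
  have h1 : HasEnoughRootsOfUnity L (Fintype.card W) := ⟨⟨ζ, hζ⟩, rootsOfUnity.isCyclic L _⟩
  have h2 : HasEnoughRootsOfUnity L (Monoid.exponent W) :=
    HasEnoughRootsOfUnity.of_dvd L Group.exponent_dvd_card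
  let _ : Fintype (W →* Lˣ) := Fintype.ofFinite _
  have hcard : Fintype.card (W →* Lˣ) = Fintype.card W := by
    rw [← Nat.card_eq_fintype_card, CommGroup.card_monoidHom_of_hasEnoughRootsOfUnity,
      Nat.card_eq_fintype_card]
  refine ⟨univ, fun _ => mem_univ _, by rw [card_univ, hcard], fun g => ?_⟩
  by_cases hg : g = 1
  · rw [if_pos hg, hg]
    simp [hcard]
  · rw [if_neg hg]
    obtain ⟨φ, hφ⟩ := CommGroup.exists_apply_ne_one_of_hasEnoughRootsOfUnity W L hg
    have h3 : ((φ g : Lˣ) : L) * ∑ ψ : W →* Lˣ, ((ψ g : Lˣ) : L) =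
        ∑ ψ : W →* Lˣ, ((ψ g : Lˣ) : L) := by
      rw [Finset.mul_sum]
      refine Fintype.sum_equiv (Equiv.mulLeft φ) _ _ fun ψ => ?_
      rw [Equiv.coe_mulLeft, MonoidHom.mul_apply, Units.val_mul]
    have h4 : (((φ g : Lˣ) : L) - 1) * ∑ ψ : W →* Lˣ, ((ψ g : Lˣ) : L) = 0 := by
      rw [sub_mul, h3, one_mul, sub_self]
    rcases mul_eq_zero.1 h4 with h5 | h5
    · exfalso
      apply hφ
      exact Units.ext (by rw [Units.val_one]; exact sub_eq_zero.1 h5)
    · exact h5

end LAN
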