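import Pool.Agent.H49.LAN.Stmts

/-!
# LAN, module LAU: the extreme pair
-/

set_option autoImplicit false

open scoped BigOperators
open Finset

namespace LAN

theorem lau : LAUStmt := by
  intro p s _ L _ A B S t hA hB hS hsum
  classical
  by_contra hcard
  push Not at hcard
  have hp : p.Prime := Fact.out
  have : NeZero (p ^ s) := ⟨pow_ne_zero _ hp.ne_zero⟩
  obtain ⟨v, hv⟩ : ∃ v : ZMod (p ^ s) → ℤ, ∀ x, v x = ((t : ZMod (p ^ s)) * x).valMinAbs :=
    ⟨_, fun _ => rfl⟩
  have hvc : ∀ x, (v x : ZMod (p ^ s)) = (t : ZMod (p ^ s)) * x := by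
    intro x
    rw [hv, ZMod.coe_valMinAbs]
  have hinj : ∀ x y, v x = v y → x = y := by
    intro x y h
    have h1 := congrArg (fun z : ℤ => (z : ZMod (p ^ s))) h
    simp only [hvc] at h1
    exact (Units.mul_right_inj t).1 h1
  have hne : S.Nonempty := card_pos.1 (by omega)
  obtain ⟨M, hM, hMmax⟩ := S.exists_max_image v hne
  obtain ⟨m, hm, hmmin⟩ := S.exists_min_image v hne
  have hMm : M ≠ m := by
    intro h
    have h1 : S ⊆ {M} := by
      intro x hx
      rw [mem_singleton]
      apply hinj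
      have h2 := hMmax x hx
      have h3 := hmmin x hx
      rw [← h] at h3
      omega
    have h2 := card_le_card h1
    rw [card_singleton] at h2
    omega
  have h1 := hsum (M - m) (sub_ne_zero.2 hMm)
  rw [sum_eq_single m] at h1
  · rw [add_sub_cancel] at h1
    rcases mul_eq_zero.1 h1 with h2 | h2
    · exact (hA M).2 hM h2
    · exact (hB m).2 hm h2
  · intro y _ hy
    by_contra h2
    have hy1 : y + (M - m) ∈ S := (hA _).1 (left_ne_zero_of_mul h2)
    have hy2 : y ∈ S := (hB _).1 (right_ne_zero_of_mul h2)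
    have h3 : (((v (y + (M - m)) - v y) : ℤ) : ZMod (p ^ s)) = (((v M - v m) : ℤ) : ZMod (p ^ s)) := by
      push_cast
      rw [hvc, hvc, hvc, hvc]
      ring
    rw [ZMod.intCast_eq_intCast_iff_dvd_sub] at h3
    have b1 := hS _ hy1
    have b2 := hS _ hy2
    have b3 := hS _ hM
    have b4 := hS _ hm
    rw [← hv] at b1 b2 b3 b4
    have h4 : |(v M - v m) - (v (y + (M - m)) - v y)| < ((p ^ s : ℕ) : ℤ) := by
      rw [abs_lt]
      constructor <;> omega
    have h5 := Int.eq_zero_of_abs_lt_dvd h3 h4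
    have h6 := hMmax _ hy1
    have h7 := hmmin _ hy2
    apply hy
    apply hinj
    omega
  · intro h
    exact absurd (mem_univ _) h

end LAN
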