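import Pool.Agent.H49.LAN.Stmts

/-!
# LAN, module REL: relations between powers of `z`
-/

set_option autoImplicit false

open scoped BigOperators
open Finset

namespace LAN

theorem rel (h1 : GALStmt) : RELStmt := by
  intro p s w _ L _ _ z hctx c hc hsum x y hy
  classical
  have hp : p.Prime := Fact.out
  have : NeZero (p ^ s) := ⟨pow_ne_zero _ hp.ne_zero⟩
  let ψ : AddChar (ZMod (p ^ s)) L := AddChar.zmodChar (p ^ s) hctx.hz.pow_eq_one
  have hψ : ∀ a, Z z a = ψ a := fun a => rfl
  have hprim : ψ.IsPrimitive := AddChar.zmodChar_primitive_of_primitive_root (p ^ s) hctx.hz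
  -- the Fourier coefficients at the units vanish
  have hunit : ∀ a : ZMod (p ^ s), IsUnit a → ∑ v, c v * ψ (a * v) = 0 := by
    rintro _ ⟨t, rfl⟩
    obtain ⟨σ, hσ, hσt⟩ := h1 p s w L z hctx t
    have h2 := congrArg σ hsum
    rw [map_sum, map_zero] at h2
    rw [← h2]
    refine sum_congr rfl fun v _ => ?_
    rw [map_mul σ (c v) (Z z v), hσt, hc v σ hσ, hψ]
  -- inversion
  have hinv : ∀ v, (Fintype.card (ZMod (p ^ s)) : L) * c v =
      ∑ a, (∑ v', c v' * ψ (a * v')) * ψ (-(a * v)) := by
    intro v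
    have h2 : ∑ a, (∑ v', c v' * ψ (a * v')) * ψ (-(a * v)) =
        ∑ v', c v' * ∑ a, ψ (a * (v' - v)) := by
      simp_rw [Finset.sum_mul, Finset.mul_sum]
      rw [Finset.sum_comm]
      refine sum_congr rfl fun v' _ => sum_congr rfl fun a _ => ?_
      rw [mul_assoc, ← AddChar.map_add_eq_mul]
      congr 2
      ring
    rw [h2, Finset.sum_eq_single v]
    · rw [AddChar.sum_mulShift (v - v) hprim, if_pos (sub_self v), mul_comm]
    · intro v' _ hne
      rw [AddChar.sum_mulShift (v' - v) hprim, if_neg (sub_ne_zero.2 hne), Nat.cast_zero, mul_zero]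
    · intro h
      exact absurd (mem_univ _) h
  have hcard : (Fintype.card (ZMod (p ^ s)) : L) ≠ 0 := by
    rw [ZMod.card]
    exact_mod_cast (NeZero.ne (p ^ s))
  apply mul_left_cancel₀ hcard
  rw [hinv, hinv]
  refine sum_congr rfl fun a _ => ?_
  by_cases ha : IsUnit a
  · rw [hunit a ha, zero_mul, zero_mul]
  · have h2 : a * y = 0 := by
      have h3 : p ∣ a.val := by
        by_contra h4
        apply ha
        rw [← ZMod.natCast_zmod_val a]
        rw [ZMod.isUnit_iff_coprime]
        exact (Nat.Coprime.pow_right s ((Nat.Prime.coprime_iff_not_dvd hp).2 h4).symm)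
      obtain ⟨b, hb⟩ := h3
      rw [← ZMod.natCast_zmod_val a, hb]
      push_cast
      rw [mul_comm (p : ZMod (p ^ s)) b, mul_assoc, hy, mul_zero]
    rw [mul_add, h2, add_zero]

end LAN
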