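import Pool.Agent.H49.LAN.Stmts

/-!
# LAN, module SQR: even group order forces the order to be a square
-/

set_option autoImplicit false

open scoped BigOperators
open Finset

namespace LAN

namespace SQR

/-- a finite commutative group of even order has a nontrivial real character -/
lemma exists_char (G : Type) [CommGroup G] [Fintype G] (h : 2 ∣ Fintype.card G) :
    ∃ (χ : G →* ℤˣ) (g : G), χ g ≠ 1 := by
  classical
  obtain ⟨S, hS⟩ : ∃ S : Subgroup G, S = (powMonoidHom 2 : G →* G).range := ⟨_, rfl⟩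
  have hne : ∃ a : G, a ∉ S := by
    by_contra hcon
    push Not at hcon
    have hsurj : Function.Surjective (powMonoidHom 2 : G →* G) := by
      intro a
      have h1 := hcon a
      rw [hS] at h1
      exact h1
    have hinj : Function.Injective (powMonoidHom 2 : G →* G) :=
      Finite.injective_iff_surjective.2 hsurj
    have : Fact (Nat.Prime 2) := ⟨Nat.prime_two⟩
    obtain ⟨x, hx⟩ := exists_prime_orderOf_dvd_card 2 h
    have h2 : x = 1 := by
      apply hinj
      rw [powMonoidHom_apply, powMonoidHom_apply, one_pow, ← hx, pow_orderOf_eq_one]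
    rw [h2, orderOf_one] at hx
    omega
  obtain ⟨a, ha⟩ := hne
  have he : HasEnoughRootsOfUnity ℤ 2 :=
    ⟨⟨-1, IsPrimitiveRoot.neg_one 0 (by norm_num)⟩, rootsOfUnity.isCyclic ℤ 2⟩
  have hexp : Monoid.exponent (G ⧸ S) ∣ 2 := by
    apply Monoid.exponent_dvd_of_forall_pow_eq_one
    intro q
    obtain ⟨g, rfl⟩ := QuotientGroup.mk_surjective q
    rw [← QuotientGroup.mk_pow]
    rw [QuotientGroup.eq_one_iff, hS]
    exact ⟨g, rfl⟩
  have he2 : HasEnoughRootsOfUnity ℤ (Monoid.exponent (G ⧸ S)) :=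
    HasEnoughRootsOfUnity.of_dvd ℤ hexp
  have ha2 : (a : G ⧸ S) ≠ 1 := by
    intro h1
    exact ha ((QuotientGroup.eq_one_iff a).1 h1)
  obtain ⟨φ, hφ⟩ := CommGroup.exists_apply_ne_one_of_hasEnoughRootsOfUnity (G ⧸ S) ℤ ha2
  exact ⟨φ.comp (QuotientGroup.mk' S), a, hφ⟩

/-- the general computation -/
lemma square (G : Type) [CommGroup G] [Fintype G] [DecidableEq G] (h : 2 ∣ Fintype.card G)
    (F : G → ℤ) (n lam : ℤ)
    (hac : ∀ k : G, ∑ g, F (g * k) * F g = lam + if k = 1 then n else 0) : ∃ a : ℤ, n = a ^ 2 := by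
  obtain ⟨χ, g0, hg0⟩ := exists_char G h
  have hsum : ∑ k : G, ((χ k : ℤˣ) : ℤ) = 0 := by
    have h3 : ((χ g0 : ℤˣ) : ℤ) * ∑ k : G, ((χ k : ℤˣ) : ℤ) = ∑ k : G, ((χ k : ℤˣ) : ℤ) := by
      rw [Finset.mul_sum]
      refine Fintype.sum_equiv (Equiv.mulLeft g0) _ _ fun k => ?_
      rw [Equiv.coe_mulLeft, map_mul, Units.val_mul]
    have h4 : (((χ g0 : ℤˣ) : ℤ) - 1) * ∑ k : G, ((χ k : ℤˣ) : ℤ) = 0 := by
      rw [sub_mul, h3, one_mul, sub_self]
    rcases mul_eq_zero.1 h4 with h5 | h5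
    · exfalso
      apply hg0
      exact Units.ext (by rw [Units.val_one]; exact sub_eq_zero.1 h5)
    · exact h5
  refine ⟨∑ g : G, F g * ((χ g : ℤˣ) : ℤ), ?_⟩
  have h1 : (∑ g : G, F g * ((χ g : ℤˣ) : ℤ)) ^ 2 =
      ∑ k : G, ((χ k : ℤˣ) : ℤ) * ∑ g, F (g * k) * F g := by
    rw [sq, Finset.sum_mul]
    have h2 : ∀ g : G, F g * ((χ g : ℤˣ) : ℤ) * ∑ g' : G, F g' * ((χ g' : ℤˣ) : ℤ) =
        ∑ k : G, ((χ k : ℤˣ) : ℤ) * (F (g * k) * F g) := by
      intro g
      rw [Finset.mul_sum]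
      symm
      refine Fintype.sum_equiv (Equiv.mulLeft g) _ _ fun k => ?_
      rw [Equiv.coe_mulLeft, map_mul, Units.val_mul]
      have h3 : ((χ g : ℤˣ) : ℤ) * ((χ g : ℤˣ) : ℤ) = 1 := by
        rw [← Units.val_mul, Int.units_mul_self, Units.val_one]
      linear_combination (-(((χ k : ℤˣ) : ℤ)) * F (g * k) * F g) * h3
    rw [Finset.sum_congr rfl fun g _ => h2 g, Finset.sum_comm]
    refine sum_congr rfl fun k _ => ?_
    rw [Finset.mul_sum]
  rw [h1]
  simp_rw [hac]
  rw [Finset.sum_congr rfl fun k _ => mul_add ((χ k : ℤˣ) : ℤ) lam _, Finset.sum_add_distrib,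
    ← Finset.sum_mul, hsum, zero_mul, zero_add, Finset.sum_eq_single 1]
  · simp
  · intro k _ hk
    rw [if_neg hk, mul_zero]
  · intro h
    exact absurd (mem_univ _) h

end SQR

theorem sqr : SQRStmt := by
  intro p s _ W _ _ _ f n lam hDS h2
  classical
  have hp : p.Prime := Fact.out
  have : NeZero (p ^ s) := ⟨pow_ne_zero _ hp.ne_zero⟩
  refine SQR.square (Multiplicative (ZMod (p ^ s)) × W) ?_ (fun g => f (Multiplicative.toAdd g.1) g.2)
    n lam ?_
  · rw [Fintype.card_prod, Fintype.card_multiplicative, ZMod.card]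
    exact h2
  · rintro ⟨y, h⟩
    rw [Fintype.sum_prod_type]
    have h1 := hDS.ac (Multiplicative.toAdd y) h
    simp only [Prod.mk_mul_mk, toAdd_mul]
    rw [show (if ((y, h) : Multiplicative (ZMod (p ^ s)) × W) = 1 then n else 0) =
      (if Multiplicative.toAdd y = 0 ∧ h = 1 then n else 0) by
        congr 1
        rw [Prod.mk_eq_one]
        rfl]
    rw [← h1]
    exact Fintype.sum_equiv Multiplicative.toAdd _ _ fun x => rfl

end LAN
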